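import Pool.Agent.H502.TZ.B9

/-!
# MP_b89fd0_nt: the density of the places with `#E(k_v)` prime to `ℓ` is zero or at least `1 / 4`

Let `K` be a number field (for example `ℚ`), `E : y² = x³ + Ax + B` an elliptic curve with coefficients
in the ring of integers of `K` and `ℓ` an odd prime.

**Result.** Either `ℓ` divides `#E(k_v)` for ALL places `v` which do not divide `2 ℓ (4 A³ + 27 B²)`, or
`ℓ` does not divide `#E(k_v)` for a set of places of lower density at least `1 / 4`.

The constant `1 / 4` is best possible: if `E₀[3] ≅ ℤ/3 ⊕ μ₃` over `ℚ` and `E` is the twist of `E₀` by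
`ℚ(√d)`, `d ≠ 1, -3` squarefree, then `E[3] ≅ ε ⊕ ε ω` with quadratic characters `ε, ω`, and `3` does
not divide `#E(𝔽_p)` exactly if `ε(p) = -1`, `ω(p) = 1`.

In the notation of the problem let `ℓ` be an odd prime which does not divide `t`. Then the proportion
`δ({ℓ})` of the elements `A` of `G(ℓ)` with `det(I - A) ∈ (ℤ/ℓ)^×` is the density of the primes `p` with
`ℓ ∤ |E(𝔽_p)|`. So the local factor of the constant at `ℓ` cannot be small: it is zero, and then
`C_{E,t} = 0` because of the single prime `ℓ` (by a theorem of Katz `E` is then isogenous to a curve with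
a rational point of order `ℓ`, so that `ℓ ≤ 7` over `ℚ` by Mazur's theorem), or `δ({ℓ}) ≥ 1 / 4`.

Proof. There is a representation of the Galois group over `𝔽_ℓ` with trace `q_v + 1 - #E(k_v)` and
determinant `q_v` at the Frobenius elements. So by Chebotarev's density theorem it is enough to prove:
if in a finite group `G` of invertible `2 × 2` matrices over a field of characteristic `≠ 2` more than
`3 |G| / 4` of the elements have the eigenvalue `1`, then all have it. Let `S` be the set of these
elements, `f(g) = det(1 - g)`. If `x`, `xg`, `xg²` are in `S`, then `f(g) (1 + det x det g) = 0` by the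
linear recurrence for `tr(x gⁱ)`. For every `g` there is `x` with `x, xg, xg², xg³ ∈ S`; hence `f(g) = 0`
if `det g ≠ 1`. If there is `g` with `f(g) ≠ 0`, then `det g = 1` and at most `2/3` of the elements of
determinant `≠ -1` are in `S`. Therefore the elements of determinant `1` form a subgroup `G₁` of index
two, more than `5/6` of the elements of determinant `-1` have trace zero, this makes `G₁` commutative,
and more than half of the elements of `G₁` are unipotent. Then all are, a contradiction.
-/

set_option autoImplicit false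

open WeierstrassCurve NumberField IsDedekindDomain

namespace Pool.Agent.Results.MP_b89fd0_nt.DivisibilityGap

section
variable {K : Type} [Field K] [NumberField K]

/-- The number of points (with the point at infinity) of the equation `y² = x³ + Ax + B` modulo `v`. -/
noncomputable def numPoints (v : HeightOneSpectrum (𝓞 K)) (A B : 𝓞 K) : ℕ :=
  1 + Nat.card {P : (𝓞 K ⧸ v.asIdeal) × (𝓞 K ⧸ v.asIdeal) // P.2 ^ 2 =
    P.1 ^ 3 + Ideal.Quotient.mk v.asIdeal A * P.1 + Ideal.Quotient.mk v.asIdeal B}

/-- The lower density of the set `S` of places is at least `c`: for every `c' < c`, for all large `N`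
the proportion of the elements of `S` among the places of norm at most `N` is at least `c'`. -/
def LowerDensityAtLeast (S : Set (HeightOneSpectrum (𝓞 K))) (c : ℝ) : Prop :=
  ∀ c' < c, ∃ M : ℕ, ∀ N ≥ M,
    c' * ({v : HeightOneSpectrum (𝓞 K) | Ideal.absNorm v.asIdeal ≤ N}.ncard : ℝ) ≤
      ({v : HeightOneSpectrum (𝓞 K) | v ∈ S ∧ Ideal.absNorm v.asIdeal ≤ N}.ncard : ℝ)

end

/-- **Either the odd prime `ℓ` divides the number of points modulo `v` for all places `v` not dividing
`2 ℓ (4 A³ + 27 B²)`, or the places at which it does not have lower density at least `1 / 4`.** -/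
theorem result (K : Type) [Field K] [NumberField K] (A B : 𝓞 K) (hE : 4 * A ^ 3 + 27 * B ^ 2 ≠ 0)
    (l : ℕ) (hl : l.Prime) (hl2 : l ≠ 2) :
    (∀ v : HeightOneSpectrum (𝓞 K), (2 : 𝓞 K) ∉ v.asIdeal → (l : 𝓞 K) ∉ v.asIdeal →
      4 * A ^ 3 + 27 * B ^ 2 ∉ v.asIdeal → l ∣ numPoints v A B) ∨
    LowerDensityAtLeast {v : HeightOneSpectrum (𝓞 K) | ¬ l ∣ numPoints v A B} (1 / 4) := by
  haveI : Fact l.Prime := ⟨hl⟩
  by_cases h : Pool.Agent.H502.EC.UGT
      {v : HeightOneSpectrum (𝓞 K) | (l : ℤ) ∣ (Pool.Agent.Q46.FR.pts v A B : ℤ)} (3 / 4)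
  · left
    intro v h2 h3 h4
    have h5 := Pool.Agent.H502.TZ.main_katz hE hl2 h v ⟨h2, h4, h3⟩
    exact_mod_cast h5
  · right
    intro c' hc'
    obtain ⟨M, hM⟩ := Pool.Agent.H502.TZ.lower_of_not_ugt h (c' := c') (by linarith)
    refine ⟨M, fun N hN => (hM N hN).trans (le_of_eq ?_)⟩
    congr 3
    ext v
    constructor
    · rintro ⟨h1, h2⟩
      exact ⟨fun h3 => h1 (by exact_mod_cast h3), h2⟩
    · rintro ⟨h1, h2⟩
      exact ⟨fun h3 => h1 (by exact_mod_cast h3), h2⟩

end Pool.Agent.Results.MP_b89fd0_nt.DivisibilityGap
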