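import Mathlib
import Pool.Agent.H537.KT.Blw
import Pool.Agent.H537.KT.Cor

/-!
# The threshold of uniformity of Koblitz's law in quadratic twist families

Let `E` be the curve `y² = x³ + A x + B`, `p ∤ 2 (4 A³ + 27 B²)` and `a_p = ap A B p` (library,
`Pool.Agent.W406.TW.ap`) the trace of Frobenius, so that `E` has `p + 1 - a_p` points modulo `p`, and its
quadratic twist modulo `p` has `p + 1 + a_p` points. Let `M` be the number `kob A B t x` of the primes `p ≤ x`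
for which `(p + 1 - a_p) / t` is prime (`π_{E,t}(x)`, up to an error bounded in terms of `A`, `B`), plus the
number `kobOpp A B t x` of those with `(p + 1 + a_p) / t` prime, and let `m = one A B t x` be the number of the
`p` for which exactly one of the two is prime, `both A B t x` the number of those for which both are. The count
`π_{E_D,t}(x)` of the twist `E_D` by `D` is expected to be `M / 2`.

It is known (library, `AlmostAllTwistsAndCurves`) that for some large `C = C(ε)` and small `c > 0`, for all but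
`N ^ (1 - c)` of the `|D| ≤ N` the count of the twist is `M / 2` up to `√M x ^ ε` for all
`(log N) ^ C ≤ x ≤ N ^ c` and all `t`. We show that the threshold is exactly `x = (log N) ^ (1 / (2 ε))`:

1. each `C > 1 / (2 ε)` is admissible;
2. for each `C < 1 / (2 ε)` and `δ > 0`, if `N` is large then for each `x ≤ (log N) ^ C`, each curve and each `t`
   with `m ≥ 4800 x ^ (2 ε)` and `m ≥ M / 2` there are at least `N ^ (1 - δ)` squarefree `1 ≤ D ≤ N` for which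
   the count of the twist is less than `M / 2 - √M x ^ ε`;
3. large deviations: for `1 ≤ k ≤ m / 2` and `N ≥ x ^ (24 k)` the count of the twist is at most
   `M / 2 - √(k m) / 34` for at least `N / x ^ (9 k)` of the squarefree `1 ≤ D ≤ N`;
4. if `N ≥ x ^ (12 m)` then for each set `S` of primes at least `N / (256 * 3 ^ m)` of the squarefree
   `1 ≤ D ≤ N` have the property that at each of the `m` primes `p` the twist has good reduction and its
   number of points is `t` times a prime exactly for `p ∈ S`;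
5. let the curve satisfy `M (log x) ^ 2 / x → K > 0` (it does if Koblitz's law, with any constants, holds for the
   curve and for the opposite orders). For all but `N ^ (1 - c)` of the twists the law with the
   constant `K / 2` holds up to `η` for all `(log N) ^ (1 + η) ≤ x ≤ N ^ c`, but for at least `N ^ (1 - δ)` of
   the squarefree twists only primes with both orders `t` times a prime are counted up to `κ log N log log N`
   (the expected number of these is of the order `x / (log x) ^ 3`). So the threshold of uniformity of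
   Koblitz's law in the family of the quadratic twists is `x = (log N) ^ (1 + o(1))`.
-/

set_option autoImplicit false

namespace Pool.Agent.Results.MP_b89fd0_nt.ThresholdInTwists

open Pool.Agent.W406.TW Filter Topology

/-- `n / t` is a prime number -/
def IsTimesPrime (t : ℕ) (n : ℤ) : Prop := ∃ l : ℕ, l.Prime ∧ n = t * l

/-- `p ≤ x` is a prime which does not divide `2 (4 A³ + 27 B²)` -/
def Good (A B : ℤ) (x p : ℕ) : Prop := p ≤ x ∧ p.Prime ∧ ¬ ((p : ℤ) ∣ 2 * (4 * A ^ 3 + 27 * B ^ 2))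

/-- the number of the good `p ≤ x` for which `(p + 1 - a_p) / t` is a prime number -/
noncomputable def kob (A B : ℤ) (t x : ℕ) : ℕ :=
  {p : ℕ | Good A B x p ∧ IsTimesPrime t (p + 1 - ap A B p)}.ncard

/-- the number of the good `p ≤ x` for which `(p + 1 + a_p) / t` is a prime number -/
noncomputable def kobOpp (A B : ℤ) (t x : ℕ) : ℕ :=
  {p : ℕ | Good A B x p ∧ IsTimesPrime t (p + 1 + ap A B p)}.ncard

/-- the number of the good `p ≤ x` for which exactly one of the two is a prime number -/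
noncomputable def one (A B : ℤ) (t x : ℕ) : ℕ :=
  {p : ℕ | Good A B x p ∧ ¬ (IsTimesPrime t (p + 1 - ap A B p) ↔ IsTimesPrime t (p + 1 + ap A B p))}.ncard

/-- the number of the good `p ≤ x` for which both are prime numbers -/
noncomputable def both (A B : ℤ) (t x : ℕ) : ℕ :=
  {p : ℕ | Good A B x p ∧ IsTimesPrime t (p + 1 - ap A B p) ∧ IsTimesPrime t (p + 1 + ap A B p)}.ncard

/-- the property of the traces -/
private def TT (t p : ℕ) (a : ℤ) : Prop := IsTimesPrime t (p + 1 - a)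

private lemma kob_eq (A B : ℤ) (t x : ℕ) : kob A B t x = Pool.Agent.H537.KT.cT (TT t) A B x := by
  classical
  unfold kob Pool.Agent.H537.KT.cT
  rw [← Set.ncard_coe_finset]
  congr 1
  ext p
  rw [Finset.mem_coe, Finset.mem_filter, Pool.Agent.H537.KT.mem_G]
  unfold TT Good
  constructor
  · rintro ⟨⟨h1, h2, h3⟩, h4⟩
    exact ⟨⟨⟨h2.one_lt.le, h1⟩, h2, h3⟩, h4⟩
  · rintro ⟨⟨⟨_, h1⟩, h2, h3⟩, h4⟩
    exact ⟨⟨h1, h2, h3⟩, h4⟩

private lemma kobOpp_eq (A B : ℤ) (t x : ℕ) : kobOpp A B t x = Pool.Agent.H537.KT.cN (TT t) A B x := by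
  classical
  unfold kobOpp Pool.Agent.H537.KT.cN
  rw [← Set.ncard_coe_finset]
  congr 1
  ext p
  rw [Finset.mem_coe, Finset.mem_filter, Pool.Agent.H537.KT.mem_G]
  unfold TT Good
  rw [Set.mem_ofPred_eq, sub_neg_eq_add]
  constructor
  · rintro ⟨⟨h1, h2, h3⟩, h4⟩
    exact ⟨⟨⟨h2.one_lt.le, h1⟩, h2, h3⟩, h4⟩
  · rintro ⟨⟨⟨_, h1⟩, h2, h3⟩, h4⟩
    exact ⟨⟨h1, h2, h3⟩, h4⟩

private lemma mem_P1 (A B : ℤ) (t x p : ℕ) : p ∈ Pool.Agent.H537.KT.P1 (TT t) A B x ↔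
    Good A B x p ∧ ¬ (IsTimesPrime t (p + 1 - ap A B p) ↔ IsTimesPrime t (p + 1 + ap A B p)) := by
  classical
  unfold Pool.Agent.H537.KT.P1
  rw [Finset.mem_filter, Pool.Agent.H537.KT.mem_G]
  unfold TT Good
  rw [sub_neg_eq_add]
  constructor
  · rintro ⟨⟨⟨_, h1⟩, h2, h3⟩, h4⟩
    exact ⟨⟨h1, h2, h3⟩, h4⟩
  · rintro ⟨⟨h1, h2, h3⟩, h4⟩
    exact ⟨⟨⟨h2.one_lt.le, h1⟩, h2, h3⟩, h4⟩

private lemma one_eq (A B : ℤ) (t x : ℕ) : one A B t x = (Pool.Agent.H537.KT.P1 (TT t) A B x).card := by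
  classical
  unfold one
  rw [← Set.ncard_coe_finset]
  congr 1
  ext p
  rw [Finset.mem_coe, mem_P1]
  rfl

private lemma both_eq (A B : ℤ) (t x : ℕ) : both A B t x = Pool.Agent.H537.KT.cB (TT t) A B x := by
  classical
  unfold both Pool.Agent.H537.KT.cB
  rw [← Set.ncard_coe_finset]
  congr 1
  ext p
  rw [Finset.mem_coe, Finset.mem_filter, Pool.Agent.H537.KT.mem_G]
  unfold TT Good
  rw [Set.mem_ofPred_eq, sub_neg_eq_add]
  constructor
  · rintro ⟨⟨h1, h2, h3⟩, h4⟩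
    exact ⟨⟨⟨h2.one_lt.le, h1⟩, h2, h3⟩, h4⟩
  · rintro ⟨⟨⟨_, h1⟩, h2, h3⟩, h4⟩
    exact ⟨⟨h1, h2, h3⟩, h4⟩

private lemma TT_prop : ∀ t p : ℕ, ∀ a : ℤ, p.Prime → |a| ≤ p → TT t p a → 1 ≤ t ∧ t ≤ p := by
  rintro t p a hp ha ⟨l, hl, h⟩
  have h1 := abs_le.1 ha
  have hl2 := hl.two_le
  have hp2 := hp.two_le
  have h2 : (0 : ℤ) < t * l := by rw [← h]; linarith
  have h3 : (t : ℤ) * l ≤ 2 * p + 1 := by rw [← h]; linarith
  have h4 : t ≠ 0 := by
    rintro rfl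
    simp at h2
  have h5 : t * l ≤ 2 * p + 1 := by exact_mod_cast h3
  have h6 : t * 2 ≤ t * l := Nat.mul_le_mul_left t hl2
  omega

theorem result :
    -- 1. above the threshold
    (∀ ε : ℝ, 0 < ε →
      (∀ C : ℝ, 1 / (2 * ε) < C → ∃ c : ℝ, 0 < c ∧ ∃ N₀ : ℕ, ∀ N : ℕ, N₀ ≤ N → ∀ A B : ℤ,
        ({D : ℤ | D ≠ 0 ∧ |D| ≤ N ∧ ∃ x : ℕ, (Real.log N) ^ C ≤ x ∧ (x : ℝ) ≤ (N : ℝ) ^ c ∧
          ∃ t : ℕ, √((kob A B t x : ℝ) + kobOpp A B t x) * (x : ℝ) ^ ε <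
            |(kob (A * D ^ 2) (B * D ^ 3) t x : ℝ) - (kob A B t x + kobOpp A B t x) / 2|}.ncard : ℝ) ≤
          (N : ℝ) ^ (1 - c)) ∧
      -- 2. below the threshold
      (∀ C δ : ℝ, 0 < C → C < 1 / (2 * ε) → 0 < δ → ∃ N₀ : ℕ, ∀ N : ℕ, N₀ ≤ N →
        ∀ x : ℕ, 1 ≤ x → (x : ℝ) ≤ (Real.log N) ^ C → ∀ A B : ℤ, ∀ t : ℕ,
        4800 * (x : ℝ) ^ (2 * ε) ≤ one A B t x →
        (kob A B t x : ℝ) + kobOpp A B t x ≤ 2 * one A B t x →
        (N : ℝ) ^ (1 - δ) ≤ ({D : ℕ | 1 ≤ D ∧ D ≤ N ∧ Squarefree D ∧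
          (kob (A * (D : ℤ) ^ 2) (B * (D : ℤ) ^ 3) t x : ℝ) < (kob A B t x + kobOpp A B t x) / 2 -
            √((kob A B t x : ℝ) + kobOpp A B t x) * (x : ℝ) ^ ε}.ncard : ℝ))) ∧
    -- 3. large deviations
    (∀ (A B : ℤ) (t x k N : ℕ), 1 ≤ k → 2 * k ≤ one A B t x → x ^ (24 * k) ≤ N →
      (N : ℝ) ≤ (x : ℝ) ^ (9 * k) * ({D : ℕ | 1 ≤ D ∧ D ≤ N ∧ Squarefree D ∧
        (kob (A * (D : ℤ) ^ 2) (B * (D : ℤ) ^ 3) t x : ℝ) ≤
          (kob A B t x + kobOpp A B t x) / 2 - √((k : ℝ) * one A B t x) / 34}.ncard : ℝ)) ∧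
    -- 4. all patterns
    (∀ (A B : ℤ) (t x N : ℕ) (S : Set ℕ), x ^ (12 * one A B t x) ≤ N →
      (N : ℝ) ≤ 256 * 3 ^ (one A B t x) * ({D : ℕ | 1 ≤ D ∧ D ≤ N ∧ Squarefree D ∧
        ∀ p : ℕ, Good A B x p →
          ¬ (IsTimesPrime t (p + 1 - ap A B p) ↔ IsTimesPrime t (p + 1 + ap A B p)) →
          ¬ ((p : ℤ) ∣ D) ∧
          (IsTimesPrime t (p + 1 - ap (A * (D : ℤ) ^ 2) (B * (D : ℤ) ^ 3) p) ↔ p ∈ S)}.ncard : ℝ)) ∧
    -- 5. the range of uniformity of Koblitz's law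
    (∀ (A B : ℤ) (t : ℕ) (K : ℝ), 0 < K →
      Tendsto (fun x : ℕ => ((kob A B t x : ℝ) + kobOpp A B t x) * Real.log x ^ 2 / x) atTop (𝓝 K) →
      (∀ η : ℝ, 0 < η → ∃ c : ℝ, 0 < c ∧ ∃ N₀ : ℕ, ∀ N : ℕ, N₀ ≤ N →
        ({D : ℤ | D ≠ 0 ∧ |D| ≤ N ∧ ∃ x : ℕ, (Real.log N) ^ (1 + η) ≤ x ∧ (x : ℝ) ≤ (N : ℝ) ^ c ∧
          η < |(kob (A * D ^ 2) (B * D ^ 3) t x : ℝ) * Real.log x ^ 2 / x - K / 2|}.ncard : ℝ) ≤
          (N : ℝ) ^ (1 - c)) ∧
      (∃ κ : ℝ, 0 < κ ∧ ∀ δ : ℝ, 0 < δ → ∃ N₀ : ℕ, ∀ N : ℕ, N₀ ≤ N →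
        (N : ℝ) ^ (1 - δ) ≤ ({D : ℕ | 1 ≤ D ∧ D ≤ N ∧ Squarefree D ∧
          ∀ x : ℕ, (x : ℝ) ≤ κ * (Real.log N * Real.log (Real.log N)) →
            kob (A * (D : ℤ) ^ 2) (B * (D : ℤ) ^ 3) t x ≤ both A B t x}.ncard : ℝ))) := by
  simp only [kob_eq, kobOpp_eq, one_eq, both_eq]
  refine ⟨fun ε hε => ⟨fun C hC => ?_, fun C δ hC0 hC hδ => ?_⟩, ?_, ?_, ?_⟩
  · obtain ⟨c, hc, N₀, h⟩ := Pool.Agent.H537.KT.above ε C hε hC
    exact ⟨c, hc, N₀, fun N hN A B => h N hN A B TT TT_prop⟩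
  · obtain ⟨N₀, h⟩ := Pool.Agent.H537.KT.below ε C δ hε hC0 hC hδ
    exact ⟨N₀, fun N hN x hx hxC A B t hm hM => h N hN x hx hxC A B (TT t) hm hM⟩
  · exact fun A B t x k N hk hm hN => Pool.Agent.H537.KT.low (TT t) A B x k N hk hm hN
  · intro A B t x N S hN
    have h := Pool.Agent.H537.KT.patt (TT t) A B x N S hN
    simp only [mem_P1] at h
    refine h.trans (le_of_eq ?_)
    congr 3
    ext D
    simp only [Set.mem_ofPred_eq, and_imp]
    rfl
  · intro A B t K hK h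
    exact ⟨fun η hη => Pool.Agent.H537.KT.cor_above A B TT TT_prop t K hK h η hη,
      Pool.Agent.H537.KT.cor_below A B (TT t) K hK h⟩

end Pool.Agent.Results.MP_b89fd0_nt.ThresholdInTwists
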